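import Mathlib
import Pool.Agent.U562.WV.Stm

/-!
# Project WV, job KEY0 (helper186)
-/

set_option autoImplicit false

namespace Pool.Agent.U186.WV

open MeasureTheory Set Metric
open scoped ENNReal NNReal FourierTransform RealInnerProductSpace SchwartzMap
open Pool.Agent.U562.WV

/-- an orthonormal frame with a given third vector -/
theorem frame (w : E 3) (hw : ‖w‖ = 1) : ∃ b : Fin 3 → E 3, Orthonormal ℝ b ∧ b 2 = w := by
  obtain ⟨b, hb⟩ := Orthonormal.exists_orthonormalBasis_extension_of_card_eq (𝕜 := ℝ) (E := E 3)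
    (ι := Fin 3) (by simp) (v := fun _ => w) (s := {2}) (by
      rw [orthonormal_iff_ite]
      rintro ⟨i, hi⟩ ⟨j, hj⟩
      simp only [mem_singleton_iff] at hi hj
      subst hi; subst hj
      simp [Set.domRestrict, hw])
  exact ⟨b, b.orthonormal, by simpa using hb 2 (by simp)⟩

/-- the substitution `t = 1/(2s)` -/
theorem subst (H : ℝ → ℝ≥0∞) : ∫⁻ t in Ioi (0 : ℝ), H t =
    ∫⁻ s in Ioi (0 : ℝ), ENNReal.ofReal (1 / (2 * s ^ 2)) * H (1 / (2 * s)) := by
  have himg : (fun s : ℝ => 1 / (2 * s)) '' Ioi 0 = Ioi 0 := by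
    ext t
    simp only [mem_image, mem_Ioi]
    constructor
    · rintro ⟨s, hs, rfl⟩; positivity
    · intro ht
      exact ⟨1 / (2 * t), by positivity, by field_simp⟩
  have h := lintegral_image_eq_lintegral_abs_deriv_mul (s := Ioi (0 : ℝ))
    (f := fun s => 1 / (2 * s)) (f' := fun s => -(1 / (2 * s ^ 2))) measurableSet_Ioi
    (fun x hx => by
      have hx0 : (x : ℝ) ≠ 0 := ne_of_gt hx
      have h1 : HasDerivAt (fun s : ℝ => 2 * s) 2 x := by
        simpa using (hasDerivAt_id x).const_mul 2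
      have h2 := h1.inv (by simpa using hx0)
      have h3 : HasDerivAt (fun s : ℝ => 1 / (2 * s)) (-(1 / (2 * x ^ 2))) x := by
        have e : (fun s : ℝ => 1 / (2 * s)) = (fun s : ℝ => 2 * s)⁻¹ := by
          ext s; simp
        rw [e]
        have e2 : -2 / (2 * x) ^ 2 = -(1 / (2 * x ^ 2)) := by
          have e3 : (2 * x) ^ 2 = 2 * (2 * x ^ 2) := by ring
          rw [e3, neg_div, ← div_div]
          norm_num
        rw [← e2]
        exact h2
      exact h3.hasDerivWithinAt)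
    (fun x hx y hy hxy => by
      have hx0 : (x : ℝ) ≠ 0 := ne_of_gt hx
      have hy0 : (y : ℝ) ≠ 0 := ne_of_gt hy
      simp only at hxy
      field_simp at hxy
      linarith) H
  rw [himg] at h
  rw [h]
  refine setLIntegral_congr_fun measurableSet_Ioi fun s hs => ?_
  have hs0 : (0 : ℝ) < s := hs
  rw [abs_neg, abs_of_pos (by positivity)]

theorem sg_ae : ∀ᵐ w ∂sg, ‖w‖ = 1 := by
  unfold sg
  rw [ae_map_iff measurable_subtype_coe.aemeasurable
    (measurableSet_eq_fun measurable_norm measurable_const)]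
  exact Filter.Eventually.of_forall fun x => by simp

/-- Job KEY0. -/
theorem t_KEY0 : S_KER → S_CONE → S_SLI → S_POL → S_KEY0 := by
  intro hKER hCONE hSLI hPOL g hg
  obtain ⟨hk, hnorm⟩ := hKER g hg
  obtain ⟨hk1, r, R, hr, hkz⟩ := hk
  have hcs : HasCompactSupport (ker g) := by
    refine HasCompactSupport.of_support_subset_isCompact (isCompact_closedBall (0 : E 3) R) ?_
    intro x hx
    by_contra h
    apply hx
    refine hkz x (Or.inr ?_)
    have : R < ‖x‖ := by simpa using h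
    exact this.le
  rw [← hnorm]
  have hstep : ∀ᵐ w ∂sg, (∫⁻ t in Ioi (0 : ℝ), ‖U g t (t • w)‖ₑ ^ 2) ≤
      ENNReal.ofReal (1 / 2) * ∫⁻ σ : ℝ, ENNReal.ofReal (σ ^ 2) * ‖𝓕 (ker g) (σ • w)‖ₑ ^ 2 := by
    filter_upwards [sg_ae] with w hw
    obtain ⟨b, hb, hb2⟩ := frame w hw
    have h1 := hSLI (ker g) hk1 hcs b hb
    rw [subst (fun t => ‖U g t (t • w)‖ₑ ^ 2)]
    have h2 : ∫⁻ s in Ioi (0 : ℝ), ENNReal.ofReal (1 / (2 * s ^ 2)) *
        ‖U g (1 / (2 * s)) ((1 / (2 * s)) • w)‖ₑ ^ 2 =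
        ∫⁻ s in Ioi (0 : ℝ), ENNReal.ofReal (1 / (8 * Real.pi ^ 2)) * ‖Q (ker g) b s‖ₑ ^ 2 := by
      refine setLIntegral_congr_fun measurableSet_Ioi fun s hs => ?_
      have hs0 : (0 : ℝ) < s := hs
      have h3 := hCONE g hg b hb s hs0
      rw [hb2] at h3
      rw [h3, enorm_neg, enorm_mul, mul_pow, ← mul_assoc]
      congr 1
      have h4 : ‖((s / (2 * Real.pi) : ℝ) : ℂ)‖ₑ = ENNReal.ofReal (s / (2 * Real.pi)) := by
        rw [← ofReal_norm, Complex.norm_real, Real.norm_eq_abs, abs_of_pos (by positivity)]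
      rw [h4, ← ENNReal.ofReal_pow (by positivity), ← ENNReal.ofReal_mul (by positivity)]
      congr 1
      field_simp
      norm_num
    rw [h2, lintegral_const_mul' _ _ ENNReal.ofReal_ne_top]
    have h5 : ∫⁻ s in Ioi (0 : ℝ), ‖Q (ker g) b s‖ₑ ^ 2 ≤
        ENNReal.ofReal (4 * Real.pi ^ 2) *
          ∫⁻ σ : ℝ, ENNReal.ofReal (σ ^ 2) * ‖𝓕 (ker g) (σ • w)‖ₑ ^ 2 := by
      refine (setLIntegral_le_lintegral _ _).trans (h1.trans (le_of_eq ?_))
      rw [← lintegral_const_mul' _ _ ENNReal.ofReal_ne_top]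
      refine lintegral_congr fun σ => ?_
      rw [hb2, ← mul_assoc, ← ENNReal.ofReal_mul (by positivity)]
      congr 2
      ring
    refine (mul_le_mul_right h5 _).trans (le_of_eq ?_)
    rw [← mul_assoc, ← ENNReal.ofReal_mul (by positivity)]
    congr 2
    have := Real.pi_pos
    field_simp
    norm_num
  refine (lintegral_mono_ae hstep).trans ?_
  rw [lintegral_const_mul' _ _ ENNReal.ofReal_ne_top]
  have h6 := hPOL (ker g) hk1.continuous hcs
  refine (mul_le_mul_right h6 _).trans (le_of_eq ?_)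
  rw [← mul_assoc]
  have : ENNReal.ofReal (1 / 2) * 2 = 1 := by
    rw [show (2 : ℝ≥0∞) = ENNReal.ofReal 2 by simp, ← ENNReal.ofReal_mul (by norm_num)]
    norm_num
  rw [this, one_mul]

end Pool.Agent.U186.WV
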